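import Pool.Agent.KS6_22.SC.Ex

/-!
# Which functions blow up on contractions

Let `f` be a Lipschitz function on the unit circle and let `u` be its harmonic extension to the
closed unit disc.  There is an example as asked for in Q1 with this `f`, and with simultaneously
diagonal contractions, if and only if `u` is not Lipschitz on the disc.  If the published estimate
for analytic Lipschitz functions is used, then the condition that the contractions are
simultaneously diagonal can be dropped: the functions `f` for which the answer is yes are exactly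
the Lipschitz functions whose harmonic extension is not Lipschitz.
-/

set_option autoImplicit false
set_option linter.unusedSectionVars false

open scoped ENNReal InnerProductSpace Topology Real NNReal
open Module ContinuousLinearMap Filter
open Pool.Agent.KS6_22.SC.SL

namespace Pool.Agent.Results.MP_6ade77_an.WhichFunctions

universe u

variable {H : Type u} [NormedAddCommGroup H] [InnerProductSpace ℂ H] [CompleteSpace H]

/-- `a n ↑ l`: the sequence is nondecreasing with limit `l`. -/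
def IncTo {α : Type} [Preorder α] [TopologicalSpace α] (a : ℕ → α) (l : α) : Prop :=
  Monotone a ∧ Tendsto a atTop (𝓝 l)

/-- An example as asked for in Q1, with the function `f`. -/
def Q1Example (p : ℝ) (f : Circle → ℂ) (T₁ : H →L[ℂ] H) (T₀ : ℕ → H →L[ℂ] H) : Prop :=
  ‖T₁‖ ≤ 1 ∧ (∀ n, ‖T₀ n‖ ≤ 1) ∧ (∃ M : ℝ≥0, ∀ n, sN p (T₁ - T₀ n) ≤ M) ∧
    IncTo (fun n => ‖T₀ n‖) 1 ∧ IncTo (fun n => sN p (fc f T₁ - fc f (T₀ n))) ∞

/-- All the operators are diagonal in one orthonormal basis. -/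
def SimDiag (T₁ : H →L[ℂ] H) (T₀ : ℕ → H →L[ℂ] H) : Prop :=
  ∃ (ι : Type u) (b : HilbertBasis ι ℂ H) (t₁ : ι → ℂ) (t₀ : ℕ → ι → ℂ),
    Dg b T₁ t₁ ∧ ∀ n, Dg b (T₀ n) (t₀ n)

theorem not_example_of_bound {p : ℝ} {f : Circle → ℂ} {T₁ : H →L[ℂ] H} {T₀ : ℕ → H →L[ℂ] H}
    {C : ℝ≥0∞} (hC : C ≠ ∞)
    (h : ∀ n, sN p (T₁ - T₀ n) ≠ ∞ → sN p (fc f T₁ - fc f (T₀ n)) ≤ C * sN p (T₁ - T₀ n)) :
    ¬ Q1Example p f T₁ T₀ := by
  rintro ⟨-, -, ⟨M, hM⟩, -, -, ht⟩
  have hb : ∀ n, sN p (fc f T₁ - fc f (T₀ n)) ≤ C * M := fun n =>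
    (h n (ne_top_of_le_ne_top ENNReal.coe_ne_top (hM n))).trans (by gcongr; exact hM n)
  have h1 : (∞ : ℝ≥0∞) ≤ C * M := le_of_tendsto' ht hb
  exact ENNReal.mul_ne_top hC ENNReal.coe_ne_top (top_le_iff.1 h1)

theorem result :
    (∀ (p : ℝ), 1 ≤ p → ∀ (H : Type u) [NormedAddCommGroup H] [InnerProductSpace ℂ H]
      [CompleteSpace H], ¬ FiniteDimensional ℂ H →
      ∀ f : Circle → ℂ, (∃ K : ℝ≥0, LipschitzWith K f) →
      -- (1) blow up if the harmonic extension is not Lipschitz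
      (¬ LipDisc (hx f) → f ∉ DiscAlgebra ∧
        ∃ (T₁ : H →L[ℂ] H) (T₀ : ℕ → H →L[ℂ] H), Q1Example p f T₁ T₀ ∧ SimDiag T₁ T₀ ∧
          (∀ n, ‖T₀ n‖ = 1) ∧ ∀ n, sN p (fc f T₁ - fc f (T₀ n)) ≠ ∞) ∧
      -- (2) no simultaneously diagonal example if the harmonic extension is Lipschitz
      (LipDisc (hx f) → ∀ (T₁ : H →L[ℂ] H) (T₀ : ℕ → H →L[ℂ] H), SimDiag T₁ T₀ →
        ¬ Q1Example p f T₁ T₀) ∧
      -- (3) with the published estimate for analytic functions: no example at all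
      (AnalyticEstimate p H →
        ((∃ (T₁ : H →L[ℂ] H) (T₀ : ℕ → H →L[ℂ] H), Q1Example p f T₁ T₀) ↔ ¬ LipDisc (hx f))) ∧
      -- (4) the condition in terms of the two parts of the Fourier series
      (LipDisc (hx f) ↔ LipDisc (pser (cpos f)) ∧ LipDisc (pser (cneg f)))) ∧
    -- (5) there are such functions
    ∃ f : Circle → ℂ, LipschitzWith 1 f ∧ ¬ LipDisc (hx f) := by
  refine ⟨?_, fE, fE_lip, not_lip_fE⟩
  rintro p hp H _ _ _ hH f ⟨K, hf⟩
  have hp0 : 0 < p := by linarith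
  have h1 : ¬ LipDisc (hx f) → f ∉ DiscAlgebra ∧
      ∃ (T₁ : H →L[ℂ] H) (T₀ : ℕ → H →L[ℂ] H), Q1Example p f T₁ T₀ ∧ SimDiag T₁ T₀ ∧
        (∀ n, ‖T₀ n‖ = 1) ∧ ∀ n, sN p (fc f T₁ - fc f (T₀ n)) ≠ ∞ := by
    intro hnot
    refine ⟨fun hA => hnot (lipDisc_of_mem hf hA), ?_⟩
    obtain ⟨ι, b, T₁, T₀, t₁, t₀, d1, d0, n1, n0, hs, hfin, hm, ht⟩ := blowup hH hp hf hnot
    refine ⟨T₁, T₀, ⟨n1, fun n => (n0 n).le, ⟨2, fun n => by simpa using hs n⟩, ⟨?_, ?_⟩, hm, ht⟩,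
      ⟨ι, b, t₁, t₀, d1, d0⟩, n0, hfin⟩
    · intro m n _
      simp only [n0]
      exact le_rfl
    · simp only [n0]
      exact tendsto_const_nhds
  refine ⟨h1, ?_, ?_, lip_parts hf⟩
  · rintro ⟨C, hC⟩ T₁ T₀ ⟨ι, b, t₁, t₀, d1, d0⟩ hex
    have hc1 := hex.1
    have hc0 := hex.2.1
    exact not_example_of_bound ENNReal.ofReal_ne_top (fun n _ =>
      diag_estimate hp0 hf hC d1 (d0 n) (fun k => d1.entry_le hc1 k)
        (fun k => (d0 n).entry_le (hc0 n) k)) hex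
  · intro hE
    constructor
    · rintro ⟨T₁, T₀, hex⟩ hL
      obtain ⟨C, hC⟩ := estimate_of_analytic hp hE hf hL
      exact not_example_of_bound (C := C) ENNReal.coe_ne_top
        (fun n hn => hC T₁ (T₀ n) hex.1 (hex.2.1 n) hn) hex
    · intro hnot
      obtain ⟨-, T₁, T₀, hex, -⟩ := h1 hnot
      exact ⟨T₁, T₀, hex⟩

end Pool.Agent.Results.MP_6ade77_an.WhichFunctions
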